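import Pool.Agent.KS6_11.Nuc.Noise

/-!
# MP_afaa81_pr, Q1: nuclear norm minimisation under noise, uniformly over all low rank matrices

If a sequence of patterns admits stable recovery of low rank matrices, then for every `K`, `L`, `ε`
there are `δ > 0` and `k₀` such that for every `k ≥ k₀`, every matrix `A` of rank at most `K` with
entries at most `L` and every matrix `X` whatsoever whose nuclear norm exceeds that of `A` by at
most `δ √(m n)` and which is `δ`-close to `A` on the revealed positions, `X` is `ε`-close to `A`.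
This contains Q1 (exact minimisers, exact data) and gives the same for noisy data.  The proof
follows the one in `R_seed8` (single matrices, exact data), with a multi-scale lemma that tolerates
errors on the revealed positions.
-/

namespace Pool.Agent.Results.MP_afaa81_pr.NoisyUniformRecovery

open Filter Topology

/-- The normalised Frobenius norm `(1/(mn) ∑ a_{ij}^2)^{1/2}`. -/
noncomputable def fbar {m n : ℕ} (A : Matrix (Fin m) (Fin n) ℝ) : ℝ :=
  Real.sqrt ((∑ i, ∑ j, A i j ^ 2) / (m * n))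

/-- The nuclear norm: the sum of the singular values, that is of the square roots of the
eigenvalues (with multiplicity) of `Xᵀ X`. -/
noncomputable def nuclearNorm {m n : ℕ} (X : Matrix (Fin m) (Fin n) ℝ) : ℝ :=
  ∑ i, Real.sqrt ((Matrix.isHermitian_conjTranspose_mul_self X).eigenvalues i)

/-- Matrices with entries in `{0, 1}`. -/
def IsBinary {m n : ℕ} (P : Matrix (Fin m) (Fin n) ℝ) : Prop := ∀ i j, P i j = 0 ∨ P i j = 1

/-- The sequence `P` admits stable recovery of low rank matrices. -/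
def StableRecovery (m n : ℕ → ℕ) (P : ∀ k, Matrix (Fin (m k)) (Fin (n k)) ℝ) : Prop :=
  ∀ (K : ℕ) (L ε : ℝ), 0 < K → 0 < L → 0 < ε → ∃ δ : ℝ, 0 < δ ∧
    ∀ A B : ∀ k, Matrix (Fin (m k)) (Fin (n k)) ℝ,
      (∀ k, (A k).rank ≤ K ∧ (B k).rank ≤ K) →
      (∀ k i j, |A k i j| ≤ L ∧ |B k i j| ≤ L) →
      limsup (fun k => fbar ((A k - B k).hadamard (P k))) atTop ≤ δ →
      limsup (fun k => fbar (A k - B k)) atTop ≤ ε

/-- `X` minimises the nuclear norm among the matrices that agree with `A` on the revealed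
positions. -/
def IsNuclearMinimiser {m n : ℕ} (A P X : Matrix (Fin m) (Fin n) ℝ) : Prop :=
  X.hadamard P = A.hadamard P ∧
    ∀ B : Matrix (Fin m) (Fin n) ℝ, B.hadamard P = A.hadamard P → nuclearNorm X ≤ nuclearNorm B

lemma nuclearNorm_eq {m n : ℕ} (X : Matrix (Fin m) (Fin n) ℝ) :
    nuclearNorm X = Pool.Agent.R208.Nuc.nuc X := rfl

lemma fbar_sq {m n : ℕ} (A : Matrix (Fin m) (Fin n) ℝ) :
    fbar A ^ 2 = (∑ i, ∑ j, A i j ^ 2) / (m * n) :=
  Real.sq_sqrt (div_nonneg (Finset.sum_nonneg fun _ _ => Finset.sum_nonneg fun _ _ => sq_nonneg _)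
    (by positivity))

lemma fbar_nonneg {m n : ℕ} (A : Matrix (Fin m) (Fin n) ℝ) : 0 ≤ fbar A := Real.sqrt_nonneg _

/-- Stable recovery forces the revealed positions to have positive density on every product of row
and column sets of positive density. -/
lemma rect_of_stable {m n : ℕ → ℕ} (hm : Tendsto m atTop atTop) (hn : Tendsto n atTop atTop)
    {P : ∀ k, Matrix (Fin (m k)) (Fin (n k)) ℝ} (hP : ∀ k, IsBinary (P k))
    (hS : StableRecovery m n P) (ρ : ℝ) (hρ : 0 < ρ) :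
    ∃ δ : ℝ, 0 < δ ∧ ∀ᶠ k in atTop, ∀ (R : Finset (Fin (m k))) (C : Finset (Fin (n k))),
      ρ * ((m k : ℝ) * n k) ≤ R.card * C.card →
        δ * ((m k : ℝ) * n k) < ∑ x ∈ R, ∑ y ∈ C, P k x y := by
  classical
  obtain ⟨δ₀, hδ₀, h⟩ := hS 1 1 (Real.sqrt ρ / 2) one_pos one_pos (by positivity)
  refine ⟨δ₀ ^ 2, by positivity, ?_⟩
  by_contra hcon
  rw [Filter.not_eventually] at hcon
  set good : ∀ k, Finset (Fin (m k)) × Finset (Fin (n k)) → Prop := fun k RC =>
    ρ * ((m k : ℝ) * n k) ≤ RC.1.card * RC.2.card ∧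
      ∑ x ∈ RC.1, ∑ y ∈ RC.2, P k x y ≤ δ₀ ^ 2 * ((m k : ℝ) * n k) with hgood
  set RC : ∀ k, Finset (Fin (m k)) × Finset (Fin (n k)) := fun k =>
    if hk : ∃ RC, good k RC then hk.choose else (∅, ∅) with hRC
  have hRC1 : ∀ k, (∃ RC, good k RC) → good k (RC k) := by
    intro k hk
    simp only [hRC, hk, dif_pos]
    exact hk.choose_spec
  have hRC2 : ∀ k, ∑ x ∈ (RC k).1, ∑ y ∈ (RC k).2, P k x y ≤ δ₀ ^ 2 * ((m k : ℝ) * n k) := by
    intro k
    by_cases hk : ∃ RC, good k RC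
    · exact (hRC1 k hk).2
    · simp only [hRC, hk, dif_neg, not_false_iff]
      simp only [Finset.sum_empty]
      positivity
  set A : ∀ k, Matrix (Fin (m k)) (Fin (n k)) ℝ := fun k =>
    Matrix.vecMulVec (fun x => if x ∈ (RC k).1 then 1 else 0)
      (fun y => if y ∈ (RC k).2 then 1 else 0) with hA
  have hAval : ∀ k x y, A k x y = if x ∈ (RC k).1 ∧ y ∈ (RC k).2 then 1 else 0 := by
    intro k x y
    simp only [hA, Matrix.vecMulVec_apply]
    by_cases hx : x ∈ (RC k).1 <;> by_cases hy : y ∈ (RC k).2 <;> simp [hx, hy]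
  have hAabs : ∀ k x y, |A k x y| ≤ 1 := by
    intro k x y
    rw [hAval]
    split_ifs <;> simp
  have hsumA : ∀ k (f : Fin (m k) → Fin (n k) → ℝ),
      ∑ x, ∑ y, (if x ∈ (RC k).1 ∧ y ∈ (RC k).2 then f x y else 0)
        = ∑ x ∈ (RC k).1, ∑ y ∈ (RC k).2, f x y := by
    intro k f
    have h1 : ∀ x, ∑ y, (if x ∈ (RC k).1 ∧ y ∈ (RC k).2 then f x y else 0)
        = if x ∈ (RC k).1 then ∑ y ∈ (RC k).2, f x y else 0 := by
      intro x
      by_cases hx : x ∈ (RC k).1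
      · simp only [hx, true_and, if_true]
        rw [← Finset.sum_filter]
        congr 1
        ext; simp
      · simp [hx]
    simp_rw [h1]
    rw [← Finset.sum_filter]
    congr 1
    ext; simp
  have hlim := h A (fun _ => 0) (by
      intro k
      refine ⟨?_, by simp⟩
      exact Matrix.rank_vecMulVec_le _ _) (by
      intro k x y
      exact ⟨hAabs k x y, by simp⟩)
  have hle : limsup (fun k => fbar ((A k - 0).hadamard (P k))) atTop ≤ δ₀ := by
    refine Filter.limsup_le_of_le ?_ ?_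
    · exact Filter.isCoboundedUnder_le_of_le atTop (fun k => fbar_nonneg _)
    · refine Filter.Eventually.of_forall fun k => ?_
      refine abs_le_of_sq_le_sq' ?_ hδ₀.le |>.2
      rw [fbar_sq]
      have h1 : ∑ x, ∑ y, ((A k - 0).hadamard (P k)) x y ^ 2
          = ∑ x ∈ (RC k).1, ∑ y ∈ (RC k).2, P k x y := by
        rw [← hsumA k (fun x y => P k x y)]
        refine Finset.sum_congr rfl fun x _ => Finset.sum_congr rfl fun y _ => ?_
        rw [Matrix.hadamard_apply, sub_zero, hAval]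
        split_ifs
        · rcases hP k x y with h0 | h0 <;> rw [h0] <;> norm_num
        · simp
      rw [h1]
      refine div_le_of_le_mul₀ (by positivity) (by positivity) (hRC2 k)
  have hfin := hlim hle
  have hfreq : ∃ᶠ k in atTop, Real.sqrt ρ ≤ fbar (A k - 0) := by
    have hpos : ∀ᶠ k in atTop, 0 < m k ∧ 0 < n k :=
      (hm.eventually_gt_atTop 0).and (hn.eventually_gt_atTop 0)
    refine (hcon.and_eventually hpos).mono ?_
    rintro k ⟨hk, hmk, hnk⟩
    push Not at hk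
    obtain ⟨R, C, h1, h2⟩ := hk
    have hex : ∃ RC, good k RC := ⟨(R, C), h1, h2⟩
    have h3 := (hRC1 k hex).1
    have hm' : (0:ℝ) < m k := by exact_mod_cast hmk
    have hn' : (0:ℝ) < n k := by exact_mod_cast hnk
    refine Real.sqrt_le_sqrt ?_
    rw [le_div_iff₀ (by positivity)]
    refine h3.trans (le_of_eq ?_)
    have h4 : ∑ x, ∑ y, (A k - 0) x y ^ 2 = ∑ x ∈ (RC k).1, ∑ y ∈ (RC k).2, (1:ℝ) := by
      rw [← hsumA k (fun _ _ => 1)]
      refine Finset.sum_congr rfl fun x _ => Finset.sum_congr rfl fun y _ => ?_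
      rw [sub_zero, hAval]
      split_ifs <;> simp
    rw [h4]
    simp
  have hbdd : IsBoundedUnder (· ≤ ·) atTop (fun k => fbar (A k - 0)) := by
    refine Filter.isBoundedUnder_of ⟨1, fun k => ?_⟩
    refine Real.sqrt_le_one.2 ?_
    refine div_le_one_of_le₀ ?_ (by positivity)
    calc ∑ x, ∑ y, (A k - 0) x y ^ 2 ≤ ∑ _x : Fin (m k), ∑ _y : Fin (n k), (1:ℝ) := by
          refine Finset.sum_le_sum fun x _ => Finset.sum_le_sum fun y _ => ?_
          rw [sub_zero, ← sq_abs]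
          exact pow_le_one₀ (abs_nonneg _) (hAabs k x y)
      _ = m k * n k := by simp
  have h5 := Filter.le_limsup_of_frequently_le hfreq hbdd
  have h6 : 0 < Real.sqrt ρ := Real.sqrt_pos.2 hρ
  linarith

/-- `X` minimises the nuclear norm among the matrices whose normalised Frobenius distance to the
observed matrix `Y` on the revealed positions is at most `η`. -/
def IsNoisyMinimiser {m n : ℕ} (Y P : Matrix (Fin m) (Fin n) ℝ) (η : ℝ)
    (X : Matrix (Fin m) (Fin n) ℝ) : Prop :=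
  fbar ((X - Y).hadamard P) ≤ η ∧
    ∀ B : Matrix (Fin m) (Fin n) ℝ, fbar ((B - Y).hadamard P) ≤ η → nuclearNorm X ≤ nuclearNorm B

open Pool.Agent.R208.Nuc in
lemma nuc_smul_le {α β : Type} [Fintype α] [Fintype β] [DecidableEq β] (X : Matrix α β ℝ) (c : ℝ)
    (hc : 0 ≤ c) : nuc (c • X) ≤ c * nuc X := by
  obtain ⟨G, h1, h2, -, -⟩ := exists_cert (c • X)
  have h4 := inner_le_nuc X G 1 zero_le_one (fun z => by simpa using h2 z)
  rw [one_mul] at h4
  rw [← h1]
  calc ∑ a, ∑ b, (c • X) a b * G a b = c * ∑ a, ∑ b, X a b * G a b := by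
        simp only [Matrix.smul_apply, smul_eq_mul, Finset.mul_sum]
        exact Finset.sum_congr rfl fun a _ => Finset.sum_congr rfl fun b _ => by ring
    _ ≤ c * nuc X := mul_le_mul_of_nonneg_left h4 hc

open Pool.Agent.R208.Nuc in
lemma frob_le_nuc {α β : Type} [Fintype α] [Fintype β] [DecidableEq β] (X : Matrix α β ℝ) :
    ∑ a, ∑ b, X a b ^ 2 ≤ nuc X ^ 2 := by
  obtain ⟨s, u, v, h⟩ := exists_svd X
  have h1 := frob_sum u v h.uorth s h.vorth
  have h2 : ∑ a, ∑ b, X a b ^ 2 = ∑ a, ∑ b, (∑ i, s i * (u i a * v i b)) ^ 2 := by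
    refine Finset.sum_congr rfl fun a _ => Finset.sum_congr rfl fun b _ => ?_
    rw [h.eq]
  rw [h2, h1, ← h.sum_eq, sq, Finset.sum_mul]
  refine Finset.sum_le_sum fun i _ => ?_
  rw [h.vnorm i, mul_one]
  have h3 : s i ≤ ∑ j, s j := Finset.single_le_sum (fun j _ => h.nonneg j) (Finset.mem_univ i)
  calc s i ^ 2 * ∑ a, u i a ^ 2 ≤ s i ^ 2 * 1 :=
        mul_le_mul_of_nonneg_left (h.unorm_le i) (sq_nonneg _)
    _ = s i * s i := by ring
    _ ≤ s i * ∑ j, s j := mul_le_mul_of_nonneg_left h3 (h.nonneg i)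

/-- Exact comparison of the nuclear norms, uniformly in the matrices. -/
lemma uniform_exact (m n : ℕ → ℕ) (hm : Tendsto m atTop atTop) (hn : Tendsto n atTop atTop)
    (P : ∀ k, Matrix (Fin (m k)) (Fin (n k)) ℝ) (hP : ∀ k, IsBinary (P k))
    (hS : StableRecovery m n P) (K : ℕ) (L₀ ζ : ℝ) (hζ : 0 < ζ) :
    ∃ (κ : ℝ) (k₀ : ℕ), 0 < κ ∧ ∀ k, k₀ ≤ k → ∀ A X : Matrix (Fin (m k)) (Fin (n k)) ℝ,
      A.rank ≤ K → (∀ i j, |A i j| ≤ L₀) → nuclearNorm X ≤ nuclearNorm A →
      ∑ i, ∑ j, (X - A) i j ^ 2 * P k i j ≤ κ * (m k * n k) →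
      ∑ i, ∑ j, (X - A) i j ^ 2 ≤ ζ ^ 2 * (m k * n k) := by
  set L : ℝ := max L₀ 1 with hLdef
  have hL1 : 1 ≤ L := le_max_right _ _
  have hL : 0 < L := by linarith
  set rK : ℝ := Real.sqrt (K + 1) with hrKdef
  have hrK : 0 < rK := Real.sqrt_pos.2 (by positivity)
  have hrK2 : rK ^ 2 = K + 1 := Real.sq_sqrt (by positivity)
  choose! δf hδf0 hδf using rect_of_stable hm hn hP hS
  set Cst : ℝ := 1 + 8 * (rK * L) * (rK * (1 + 2 * L)) + 8 * L ^ 2 with hCst
  have hCpos : 0 < Cst := by positivity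
  set η : ℝ := min 1 (ζ ^ 2 / (2 * Cst)) with hηdef
  have hη : 0 < η := lt_min one_pos (by positivity)
  have hη1 : η ≤ 1 := min_le_left _ _
  have hη2 : η ≤ ζ ^ 2 / (2 * Cst) := min_le_right _ _
  have hT : 0 < 2 * rK * L := by positivity
  obtain ⟨J, ρ, κ, hρ, hκ, hmulti⟩ := Pool.Agent.KS6_11.Nuc.multi_scale_noise (2 * rK * L) (η ^ 2) η
    hT (by positivity) hη δf hδf0
  have hev : ∀ᶠ k in atTop, (∀ j ∈ Finset.range J, ∀ (R : Finset (Fin (m k)))
      (C : Finset (Fin (n k))), ρ j * ((m k : ℝ) * n k) ≤ R.card * C.card →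
        δf (ρ j) * ((m k : ℝ) * n k) < ∑ x ∈ R, ∑ y ∈ C, P k x y) ∧ 0 < m k ∧ 0 < n k := by
    refine Filter.Eventually.and ?_
      ((hm.eventually_gt_atTop 0).and (hn.eventually_gt_atTop 0))
    rw [Filter.eventually_all_finset]
    intro j _
    exact hδf (ρ j) (hρ j)
  obtain ⟨k₀, hk₀⟩ := Filter.eventually_atTop.1 hev
  refine ⟨κ, k₀, hκ, fun k hk A X hK hAL₀ hmin' hnoise => ?_⟩
  obtain ⟨hrect, hmk, hnk⟩ := hk₀ k hk
  have hAL : ∀ i j, |A i j| ≤ L := fun i j => (hAL₀ i j).trans (le_max_left _ _)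
  have hM : (0:ℝ) < m k := by exact_mod_cast hmk
  have hN : (0:ℝ) < n k := by exact_mod_cast hnk
  have hMN : (0:ℝ) < (m k : ℝ) * n k := mul_pos hM hN
  have hMc : (m k : ℝ) = Fintype.card (Fin (m k)) := by simp
  have hNc : (n k : ℝ) = Fintype.card (Fin (n k)) := by simp
  have hrk : (A.rank : ℝ) ≤ rK ^ 2 := by
    rw [hrK2]
    have : (A.rank : ℝ) ≤ K := by exact_mod_cast hK
    linarith
  have hmin : Pool.Agent.R208.Nuc.nuc X ≤ Pool.Agent.R208.Nuc.nuc A := hmin'
  have hnucA : Pool.Agent.R208.Nuc.nuc A ≤ rK * L * Real.sqrt (m k * n k) := by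
    refine abs_le_of_sq_le_sq' ?_ (by positivity) |>.2
    calc Pool.Agent.R208.Nuc.nuc A ^ 2 ≤ A.rank * ∑ a, ∑ b, A a b ^ 2 :=
          Pool.Agent.R208.Nuc.nuc_sq_le A
      _ ≤ rK ^ 2 * (L ^ 2 * (m k * n k)) := by
          refine mul_le_mul hrk ?_ (Finset.sum_nonneg fun a _ =>
            Finset.sum_nonneg fun b _ => sq_nonneg _) (by positivity)
          calc ∑ a, ∑ b, A a b ^ 2 ≤ ∑ _a : Fin (m k), ∑ _b : Fin (n k), L ^ 2 := by
                refine Finset.sum_le_sum fun a _ => Finset.sum_le_sum fun b _ => ?_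
                rw [← sq_abs]; exact pow_le_pow_left₀ (abs_nonneg _) (hAL a b) 2
            _ = L ^ 2 * (m k * n k) := by
                simp only [Finset.sum_const, nsmul_eq_mul, Finset.card_univ, Fintype.card_fin]
                ring
      _ = (rK * L * Real.sqrt (m k * n k)) ^ 2 := by
          rw [mul_pow _ (Real.sqrt _), Real.sq_sqrt hMN.le]; ring
  have hnucD : Pool.Agent.R208.Nuc.nuc (X - A) ≤ 2 * rK * L * Real.sqrt (m k * n k) := by
    have := Pool.Agent.R208.Nuc.nuc_sub_le X A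
    linarith
  obtain ⟨σ, a, b, hsc, hdec⟩ := Pool.Agent.R208.Nuc.exists_scaled (X - A) (m k) (n k)
    (2 * rK * L) hM hN hnucD
  obtain ⟨R, C, hR, hC, hgood⟩ := hmulti (Fin (m k)) (Fin (n k)) (Fin (n k)) (m k) (n k) σ a b
    (X - A) (P k) hM hN hMc hNc hsc hdec (hP k) hnoise hrect
  have hfinal := Pool.Agent.R208.Nuc.final_bound A X (m k) (n k) rK L η hM hN hMc hNc hrK
    hL hη hrk hAL hmin R C hR hC hgood
  refine le_trans hfinal (mul_le_mul_of_nonneg_right ?_ hMN.le)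
  have h1 : η ^ 2 ≤ η := by nlinarith
  have h2 : η ^ 2 + 8 * (rK * L) * (rK * η * (1 + 2 * L)) + 8 * η ^ 2 * L ^ 2 ≤ η * Cst := by
    have h3 : 8 * η ^ 2 * L ^ 2 ≤ 8 * η * L ^ 2 := by
      have := mul_le_mul_of_nonneg_right h1 (show 0 ≤ 8 * L ^ 2 by positivity)
      linarith
    rw [hCst]
    linarith
  have h4 : η * Cst ≤ ζ ^ 2 / 2 := by
    calc η * Cst ≤ ζ ^ 2 / (2 * Cst) * Cst := mul_le_mul_of_nonneg_right hη2 hCpos.le
      _ = ζ ^ 2 / 2 := by field_simp
  have h5 : 0 < ζ ^ 2 := by positivity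
  linarith

lemma fbar_le_iff {m n : ℕ} (A : Matrix (Fin m) (Fin n) ℝ) (ε : ℝ) (hε : 0 ≤ ε)
    (hmn : (0 : ℝ) < (m : ℝ) * n) : fbar A ≤ ε ↔ ∑ i, ∑ j, A i j ^ 2 ≤ ε ^ 2 * (m * n) := by
  unfold fbar
  rw [Real.sqrt_le_left hε, div_le_iff₀ hmn]

/-- The uniform statement. -/
lemma uniform (m n : ℕ → ℕ) (hm : Tendsto m atTop atTop) (hn : Tendsto n atTop atTop)
    (P : ∀ k, Matrix (Fin (m k)) (Fin (n k)) ℝ) (hP : ∀ k, IsBinary (P k))
    (hS : StableRecovery m n P) (K : ℕ) (L ε : ℝ) (hε : 0 < ε) :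
    ∃ (δ : ℝ) (k₀ : ℕ), 0 < δ ∧ ∀ k, k₀ ≤ k → ∀ A X : Matrix (Fin (m k)) (Fin (n k)) ℝ,
      A.rank ≤ K → (∀ i j, |A i j| ≤ L) →
      nuclearNorm X ≤ nuclearNorm A + δ * Real.sqrt (m k * n k) →
      fbar ((X - A).hadamard (P k)) ≤ δ → fbar (X - A) ≤ ε := by
  obtain ⟨κ, k₀, hκ, h⟩ := uniform_exact m n hm hn P hP hS K L (ε / 2) (by positivity)
  obtain ⟨k₁, hk₁⟩ := Filter.eventually_atTop.1
    ((hm.eventually_gt_atTop 0).and (hn.eventually_gt_atTop 0))
  set δ : ℝ := min (ε / 2) (Real.sqrt κ / 2) with hδdef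
  have hδ : 0 < δ := lt_min (by positivity) (by positivity)
  have hδ1 : δ ≤ ε / 2 := min_le_left _ _
  have hδ2 : δ ≤ Real.sqrt κ / 2 := min_le_right _ _
  have hδκ : 4 * δ ^ 2 ≤ κ := by
    have h1 : δ ^ 2 ≤ (Real.sqrt κ / 2) ^ 2 := pow_le_pow_left₀ hδ.le hδ2 2
    rw [div_pow, Real.sq_sqrt hκ.le] at h1
    linarith
  refine ⟨δ, max k₀ k₁, hδ, fun k hk A X hK hAL hnuc hclose => ?_⟩
  obtain ⟨hmk, hnk⟩ := hk₁ k ((le_max_right _ _).trans hk)
  have hM : (0:ℝ) < m k := by exact_mod_cast hmk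
  have hN : (0:ℝ) < n k := by exact_mod_cast hnk
  have hMN : (0:ℝ) < (m k : ℝ) * n k := mul_pos hM hN
  set S : ℝ := Real.sqrt (m k * n k) with hSdef
  have hS0 : 0 ≤ S := Real.sqrt_nonneg _
  have hS2 : S ^ 2 = m k * n k := Real.sq_sqrt hMN.le
  -- the scaled matrix
  obtain ⟨c, hc0, hc1, hcA, hcX⟩ : ∃ c : ℝ, 0 ≤ c ∧ c ≤ 1 ∧
      c * Pool.Agent.R208.Nuc.nuc X ≤ Pool.Agent.R208.Nuc.nuc A ∧
      (1 - c) * Pool.Agent.R208.Nuc.nuc X ≤ δ * S := by
    rcases le_or_gt (Pool.Agent.R208.Nuc.nuc X) (Pool.Agent.R208.Nuc.nuc A) with h1 | h1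
    · exact ⟨1, zero_le_one, le_rfl, by rwa [one_mul], by rw [sub_self, zero_mul]; positivity⟩
    · have h0 : 0 ≤ Pool.Agent.R208.Nuc.nuc A := Pool.Agent.R208.Nuc.nuc_nonneg A
      have h2 : 0 < Pool.Agent.R208.Nuc.nuc X := lt_of_le_of_lt h0 h1
      refine ⟨Pool.Agent.R208.Nuc.nuc A / Pool.Agent.R208.Nuc.nuc X, by positivity,
        (div_le_one h2).2 h1.le, ?_, ?_⟩
      · rw [div_mul_cancel₀ _ h2.ne']
      · rw [sub_mul, one_mul, div_mul_cancel₀ _ h2.ne']
        have h3 : Pool.Agent.R208.Nuc.nuc X ≤ Pool.Agent.R208.Nuc.nuc A + δ * S := hnuc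
        linarith
  have hdiff : ∑ i, ∑ j, ((1 - c) * X i j) ^ 2 ≤ δ ^ 2 * (m k * n k) := by
    have h1 := frob_le_nuc X
    calc ∑ i, ∑ j, ((1 - c) * X i j) ^ 2 = (1 - c) ^ 2 * ∑ i, ∑ j, X i j ^ 2 := by
          simp only [mul_pow, Finset.mul_sum]
      _ ≤ (1 - c) ^ 2 * Pool.Agent.R208.Nuc.nuc X ^ 2 :=
          mul_le_mul_of_nonneg_left h1 (sq_nonneg _)
      _ = ((1 - c) * Pool.Agent.R208.Nuc.nuc X) ^ 2 := by ring
      _ ≤ (δ * S) ^ 2 := pow_le_pow_left₀
          (mul_nonneg (by linarith) (Pool.Agent.R208.Nuc.nuc_nonneg X)) hcX 2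
      _ = δ ^ 2 * (m k * n k) := by rw [mul_pow, hS2]
  have hclose' : ∑ i, ∑ j, (X - A) i j ^ 2 * P k i j ≤ δ ^ 2 * (m k * n k) := by
    have h1 := (fbar_le_iff _ δ hδ.le hMN).1 hclose
    refine le_trans (le_of_eq ?_) h1
    refine Finset.sum_congr rfl fun i _ => Finset.sum_congr rfl fun j _ => ?_
    rw [Matrix.hadamard_apply]
    rcases hP k i j with h2 | h2 <;> rw [h2] <;> ring
  have hX' := h k ((le_max_left _ _).trans hk) A (c • X) hK hAL
    ((nuc_smul_le X c hc0).trans hcA) (by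
      have h1 : ∀ i j, (c • X - A) i j ^ 2 * P k i j
          ≤ 2 * ((1 - c) * X i j) ^ 2 + 2 * ((X - A) i j ^ 2 * P k i j) := by
        intro i j
        rw [Matrix.sub_apply, Matrix.sub_apply, Matrix.smul_apply, smul_eq_mul]
        rcases hP k i j with h2 | h2 <;> rw [h2]
        · rw [mul_zero, mul_zero]; positivity
        · nlinarith [sq_nonneg ((1 - c) * X i j + (X i j - A i j))]
      refine (Finset.sum_le_sum fun i _ => Finset.sum_le_sum fun j _ => h1 i j).trans ?_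
      simp_rw [Finset.sum_add_distrib, ← Finset.mul_sum]
      have h3 : 4 * δ ^ 2 * (m k * n k : ℝ) ≤ κ * (m k * n k) :=
        mul_le_mul_of_nonneg_right hδκ hMN.le
      linarith)
  rw [fbar_le_iff _ ε hε.le hMN]
  have h1 : ∀ i j, (X - A) i j ^ 2 ≤ 2 * ((1 - c) * X i j) ^ 2 + 2 * (c • X - A) i j ^ 2 := by
    intro i j
    rw [Matrix.sub_apply, Matrix.sub_apply, Matrix.smul_apply, smul_eq_mul]
    nlinarith [sq_nonneg ((1 - c) * X i j - (c * X i j - A i j))]
  refine (Finset.sum_le_sum fun i _ => Finset.sum_le_sum fun j _ => h1 i j).trans ?_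
  simp_rw [Finset.sum_add_distrib, ← Finset.mul_sum]
  have h2 : δ ^ 2 ≤ (ε / 2) ^ 2 := pow_le_pow_left₀ hδ.le hδ1 2
  have h3 : δ ^ 2 * (m k * n k : ℝ) ≤ (ε / 2) ^ 2 * (m k * n k) :=
    mul_le_mul_of_nonneg_right h2 hMN.le
  linarith

/-- A convenient form of the triangle inequality. -/
lemma fbar_add_le {m n : ℕ} (A B : Matrix (Fin m) (Fin n) ℝ) {a b : ℝ} (ha : fbar A ≤ a)
    (hb : fbar B ≤ b) (hmn : (0 : ℝ) < (m : ℝ) * n) : fbar (A + B) ≤ 2 * (a + b) := by
  have ha0 : 0 ≤ a := (fbar_nonneg A).trans ha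
  have hb0 : 0 ≤ b := (fbar_nonneg B).trans hb
  rw [fbar_le_iff _ _ ha0 hmn] at ha
  rw [fbar_le_iff _ _ hb0 hmn] at hb
  rw [fbar_le_iff _ _ (by positivity) hmn]
  have h1 : ∀ i j, (A + B) i j ^ 2 ≤ 2 * A i j ^ 2 + 2 * B i j ^ 2 := by
    intro i j
    rw [Matrix.add_apply]
    nlinarith [sq_nonneg (A i j - B i j)]
  refine (Finset.sum_le_sum fun i _ => Finset.sum_le_sum fun j _ => h1 i j).trans ?_
  simp_rw [Finset.sum_add_distrib, ← Finset.mul_sum]
  have h2 : 2 * a ^ 2 + 2 * b ^ 2 ≤ (2 * (a + b)) ^ 2 := by nlinarith [mul_nonneg ha0 hb0]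
  have h3 := mul_le_mul_of_nonneg_right h2 hmn.le
  linarith

/-- Uniform recovery by nearly minimal nuclear norm: for all `K`, `L` and `ε > 0` there are `δ > 0`
and `k₀` such that for all `k ≥ k₀`, all `A` of rank at most `K` with entries at most `L`, and all
matrices `X` whose nuclear norm is at most that of `A` plus `δ √(m n)` and which satisfy
`fbar ((X - A) ∘ P k) ≤ δ`, one has `fbar (X - A) ≤ ε`. -/
def UniformRecovery (m n : ℕ → ℕ) (P : ∀ k, Matrix (Fin (m k)) (Fin (n k)) ℝ) : Prop :=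
  ∀ (K : ℕ) (L ε : ℝ), 0 < ε → ∃ (δ : ℝ) (k₀ : ℕ), 0 < δ ∧
    ∀ k, k₀ ≤ k → ∀ A X : Matrix (Fin (m k)) (Fin (n k)) ℝ,
      A.rank ≤ K → (∀ i j, |A i j| ≤ L) →
      nuclearNorm X ≤ nuclearNorm A + δ * Real.sqrt (m k * n k) →
      fbar ((X - A).hadamard (P k)) ≤ δ → fbar (X - A) ≤ ε

lemma fbar_symm {m n : ℕ} (U V P : Matrix (Fin m) (Fin n) ℝ) :
    fbar ((U - V).hadamard P) = fbar ((V - U).hadamard P) := by
  unfold fbar
  congr 2
  refine Finset.sum_congr rfl fun i _ => Finset.sum_congr rfl fun j _ => ?_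
  rw [Matrix.hadamard_apply, Matrix.hadamard_apply, Matrix.sub_apply, Matrix.sub_apply]
  ring

lemma fbar_symm' {m n : ℕ} (U V : Matrix (Fin m) (Fin n) ℝ) : fbar (U - V) = fbar (V - U) := by
  unfold fbar
  congr 2
  refine Finset.sum_congr rfl fun i _ => Finset.sum_congr rfl fun j _ => ?_
  rw [Matrix.sub_apply, Matrix.sub_apply]
  ring

lemma fbar_le_of_abs {m n : ℕ} (A : Matrix (Fin m) (Fin n) ℝ) (L : ℝ) (hL : 0 ≤ L)
    (h : ∀ i j, |A i j| ≤ L) : fbar A ≤ L := by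
  unfold fbar
  rw [Real.sqrt_le_left hL]
  refine div_le_of_le_mul₀ (by positivity) (by positivity) ?_
  calc ∑ i, ∑ j, A i j ^ 2 ≤ ∑ _i : Fin m, ∑ _j : Fin n, L ^ 2 := by
        refine Finset.sum_le_sum fun i _ => Finset.sum_le_sum fun j _ => ?_
        rw [← sq_abs]; exact pow_le_pow_left₀ (abs_nonneg _) (h i j) 2
    _ = L ^ 2 * (m * n) := by
        simp only [Finset.sum_const, nsmul_eq_mul, Finset.card_univ, Fintype.card_fin]
        ring

/-- Uniform recovery gives stable recovery. -/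
lemma stable_of_uniform (m n : ℕ → ℕ) (P : ∀ k, Matrix (Fin (m k)) (Fin (n k)) ℝ)
    (hP : ∀ k, IsBinary (P k)) (hU : UniformRecovery m n P) : StableRecovery m n P := by
  intro K L ε _ hL hε
  obtain ⟨δ, k₀, hδ, h⟩ := hU K L ε hε
  refine ⟨δ / 2, by positivity, fun A B hr hb hlim => ?_⟩
  have hbd : ∀ k i j, |((A k - B k).hadamard (P k)) i j| ≤ 2 * L := by
    intro k i j
    rw [Matrix.hadamard_apply, Matrix.sub_apply]
    have h1 := abs_sub (A k i j) (B k i j)
    have h2 := hb k i j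
    rcases hP k i j with h3 | h3 <;> rw [h3]
    · rw [mul_zero, abs_zero]; positivity
    · rw [mul_one]; linarith [h2.1, h2.2]
  have hbdd : IsBoundedUnder (· ≤ ·) atTop (fun k => fbar ((A k - B k).hadamard (P k))) :=
    Filter.isBoundedUnder_of ⟨2 * L, fun k => fbar_le_of_abs _ _ (by positivity) (hbd k)⟩
  have hev : ∀ᶠ k in atTop, fbar ((A k - B k).hadamard (P k)) < δ :=
    Filter.eventually_lt_of_limsup_lt (lt_of_le_of_lt hlim (by linarith)) hbdd
  refine Filter.limsup_le_of_le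
    (Filter.isCoboundedUnder_le_of_le atTop (fun k => fbar_nonneg _)) ?_
  filter_upwards [hev, Filter.eventually_ge_atTop k₀] with k hk hk0
  rcases le_total (nuclearNorm (A k)) (nuclearNorm (B k)) with h1 | h1
  · exact h k hk0 (B k) (A k) (hr k).2 (fun i j => (hb k i j).2)
      (h1.trans (le_add_of_nonneg_right (by positivity))) hk.le
  · rw [fbar_symm']
    refine h k hk0 (A k) (B k) (hr k).1 (fun i j => (hb k i j).1)
      (h1.trans (le_add_of_nonneg_right (by positivity))) ?_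
    rw [fbar_symm]; exact hk.le

/-- **Main result.**  Let `P k` be binary `m k × n k` matrices, `m k, n k → ∞`.
(1) The sequence admits stable recovery of low rank matrices if and only if `UniformRecovery`
holds: recovery by nearly minimal nuclear norm from nearly exact data, uniformly over all matrices
`A` of bounded rank and entries.
(2) Noisy data: if it admits stable recovery, the `A k` have bounded ranks and entries, `Y k` are
observed matrices with `fbar ((Y k - A k) ∘ P k) ≤ η k`, `η k → 0`, and the `X k` minimise the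
nuclear norm among the matrices within `η k` of `Y k` on the revealed positions, then
`fbar (X k - A k) → 0`.
(3) Exact data (Q1): the same for all choices of nuclear norm minimisers for `(A k, P k)`. -/
theorem result (m n : ℕ → ℕ) (hm : Tendsto m atTop atTop) (hn : Tendsto n atTop atTop)
    (P : ∀ k, Matrix (Fin (m k)) (Fin (n k)) ℝ) (hP : ∀ k, IsBinary (P k)) :
    (StableRecovery m n P ↔ UniformRecovery m n P) ∧
    (StableRecovery m n P → ∀ A Y X : ∀ k, Matrix (Fin (m k)) (Fin (n k)) ℝ,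
      (∃ K : ℕ, ∀ k, (A k).rank ≤ K) → (∃ L : ℝ, ∀ k i j, |A k i j| ≤ L) →
      ∀ η : ℕ → ℝ, Tendsto η atTop (𝓝 0) →
        (∀ k, fbar ((Y k - A k).hadamard (P k)) ≤ η k) →
        (∀ k, IsNoisyMinimiser (Y k) (P k) (η k) (X k)) →
        Tendsto (fun k => fbar (X k - A k)) atTop (𝓝 0)) ∧
    (StableRecovery m n P → ∀ A X : ∀ k, Matrix (Fin (m k)) (Fin (n k)) ℝ,
      (∃ K : ℕ, ∀ k, (A k).rank ≤ K) → (∃ L : ℝ, ∀ k i j, |A k i j| ≤ L) →
        (∀ k, IsNuclearMinimiser (A k) (P k) (X k)) →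
        Tendsto (fun k => fbar (X k - A k)) atTop (𝓝 0)) := by
  have hpos := (hm.eventually_gt_atTop 0).and (hn.eventually_gt_atTop 0)
  refine ⟨⟨fun hS => uniform m n hm hn P hP hS, stable_of_uniform m n P hP⟩, ?_, ?_⟩
  · rintro hS A Y X ⟨K, hK⟩ ⟨L, hL⟩ η hη hY hX
    have key := uniform m n hm hn P hP hS
    rw [Metric.tendsto_atTop']
    intro ζ hζ
    obtain ⟨δ, k₀, hδ, h⟩ := key K L (ζ / 2) (by positivity)
    have hsmall : ∀ᶠ k in atTop, η k < δ / 4 :=
      hη.eventually (gt_mem_nhds (by positivity))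
    obtain ⟨k₁, hk₁⟩ := Filter.eventually_atTop.1 (hsmall.and hpos)
    refine ⟨max k₀ k₁, fun k hk => ?_⟩
    obtain ⟨hηk, hmk, hnk⟩ := hk₁ k ((le_max_right _ _).trans hk.le)
    have hMN : (0:ℝ) < (m k : ℝ) * n k :=
      mul_pos (by exact_mod_cast hmk) (by exact_mod_cast hnk)
    have h1 : nuclearNorm (X k) ≤ nuclearNorm (A k) :=
      (hX k).2 (A k) (by rw [fbar_symm]; exact hY k)
    have h2 : fbar ((X k - A k).hadamard (P k)) ≤ δ := by
      have h3 : (X k - A k).hadamard (P k)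
          = (X k - Y k).hadamard (P k) + (Y k - A k).hadamard (P k) := by
        ext i j
        simp only [Matrix.hadamard_apply, Matrix.sub_apply, Matrix.add_apply]
        ring
      rw [h3]
      refine (fbar_add_le _ _ (hX k).1 (hY k) hMN).trans ?_
      linarith
    have h4 := h k ((le_max_left _ _).trans hk.le) (A k) (X k) (hK k) (hL k)
      (h1.trans (le_add_of_nonneg_right (by positivity))) h2
    rw [Real.dist_eq, sub_zero, abs_of_nonneg (fbar_nonneg _)]
    linarith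
  · rintro hS A X ⟨K, hK⟩ ⟨L, hL⟩ hX
    have key := uniform m n hm hn P hP hS
    rw [Metric.tendsto_atTop']
    intro ζ hζ
    obtain ⟨δ, k₀, hδ, h⟩ := key K L (ζ / 2) (by positivity)
    refine ⟨k₀, fun k hk => ?_⟩
    have h1 : nuclearNorm (X k) ≤ nuclearNorm (A k) := (hX k).2 (A k) rfl
    have h2 : fbar ((X k - A k).hadamard (P k)) ≤ δ := by
      have h3 : (X k - A k).hadamard (P k) = 0 := by
        ext i j
        have h4 := congrFun (congrFun (hX k).1 i) j
        rw [Matrix.hadamard_apply, Matrix.hadamard_apply] at h4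
        rw [Matrix.hadamard_apply, Matrix.sub_apply, sub_mul, h4, sub_self]
        rfl
      rw [h3]
      unfold fbar
      simp only [Matrix.zero_apply]
      simp
      exact hδ.le
    have h4 := h k hk.le (A k) (X k) (hK k) (hL k)
      (h1.trans (le_add_of_nonneg_right (by positivity))) h2
    rw [Real.dist_eq, sub_zero, abs_of_nonneg (fbar_nonneg _)]
    linarith

end Pool.Agent.Results.MP_afaa81_pr.NoisyUniformRecovery
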